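import Pool.Agent.Helper63.Sey3.Goals
import Pool.Agent.Helper56.Sey.PRO
import Mathlib

/-!
# Project SEY3, packet V2: few own neighbours without main colour
-/

set_option autoImplicit false

namespace Pool.Agent.Helper51.Sey3

open Pool.Agent.Helper63.Sey3
open Pool.Agent.Helper41.Girth4 (Pr Pr_mono Pr_or_le Pr_fst Pr_prod Pr_eq_card)

section

variable {V : Type} (P : Sy V)

/-- the bad proposals of `u` -/
def BS (ω : P.Om) (u : V) (a : Fin P.q) : Prop :=
  P.qm ≤ (a : ℕ) ∨ ∃ y, P.Own u y ∧ P.idx y < P.idx u ∧ P.rd (ω y) = P.rd (ω u) ∧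
    P.pk ω (P.st ω (P.rd (ω u))) y = a

/-- the proposal of `u` is bad -/
def Hit (ω : P.Om) (u : V) : Prop := BS P ω u (P.pk ω (P.st ω (P.rd (ω u))) u)

theorem c0_none {ω : P.Om} {u : V} (h0 : P.c0 ω u = none) :
    ∀ j ≤ P.rd (ω u), P.st ω j u = none := by
  intro j
  induction j with
  | zero => intro _; exact h0
  | succ j ih =>
    intro hj
    rw [P.st_succ, P.stp_other ω (by omega)]
    exact ih (by omega)

theorem c0_some {ω : P.Om} {u : V} {a : Fin P.q} (h0 : P.c0 ω u = some a) :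
    P.al (ω u) ∧ P.co (ω u) = a := by
  classical
  by_cases h : P.al (ω u) ∧ ∀ y, P.Own u y → ¬ (P.al (ω y) ∧ P.co (ω y) = P.co (ω u))
  · have h1 : P.c0 ω u = some (P.co (ω u)) := by
      unfold Sy.c0
      rw [if_pos h]
    rw [h1] at h0
    exact ⟨h.1, Option.some.inj h0⟩
  · have h1 : P.c0 ω u = none := by
      unfold Sy.c0
      rw [if_neg h]
    rw [h1] at h0
    exact absurd h0 (by simp)

theorem ms_cases [Fintype V] (hM : GoalMISS) {κ : ℕ} (hκ : 1 ≤ κ) {ω : P.Om} {u : V}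
    (hg : P.Gd κ ω u) (hm : P.Ms ω u) :
    (P.al (ω u) ∧ P.qm ≤ (P.co (ω u) : ℕ)) ∨ Hit P ω u := by
  rcases h0 : P.c0 ω u with _ | a
  · right
    have hi : P.st ω (P.rd (ω u)) u = none := c0_none P h0 _ le_rfl
    rcases h1 : P.stp ω (P.rd (ω u)) (P.st ω (P.rd (ω u))) u with _ | a
    · rcases P.stp_none ω hi h1 with h2 | ⟨y, h2, h3, _, h5, h6⟩
      · exfalso
        have h3 := hM V P κ ω u (P.rd (ω u)) hg
        have h4 : ∃ a, ¬ P.used (P.st ω (P.rd (ω u))) u a := by
          by_contra hcon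
          push Not at hcon
          have h5 : Nat.card {a // P.used (P.st ω (P.rd (ω u))) u a} = P.q := by
            rw [Nat.card_congr (Equiv.subtypeUnivEquiv hcon)]
            simp
          have := P.D_le_q
          omega
        exact Pool.Agent.Helper56.Sey.pick_not _ _ h4 h2
      · exact Or.inr ⟨y, h2, h3, h5, h6⟩
    · obtain ⟨_, h2, _, _⟩ := P.stp_some ω hi h1
      left
      have h3 : P.st ω (P.rd (ω u) + 1) u = some a := by
        rw [P.st_succ]
        exact h1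
      have h4 : P.col ω u = some a :=
        P.st_eq_some ω (by have := P.rd_lt (ω u); omega) h3
      rw [h2]
      exact hm a h4
  · left
    have h1 := c0_some P h0
    refine ⟨h1.1, ?_⟩
    rw [h1.2]
    exact hm a (P.st_eq_some ω (i := 0) (Nat.zero_le _) h0)

theorem pr_lab : Pr (fun l : P.Lab => P.al l ∧ P.qm ≤ (P.co l : ℕ)) ≤
    ((P.q : ℝ) - P.qm) / (2 * P.q) := by
  classical
  have h1 : Pr (fun l : P.Lab => P.al l ∧ P.qm ≤ (P.co l : ℕ)) =
      Pr (fun z : Bool × Fin P.q => z.1 = true ∧ P.qm ≤ (z.2 : ℕ)) :=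
    Pr_fst (β := (Fin P.Z × Equiv.Perm (Fin P.q)) × (Fin P.J → Fin P.L) × (Fin P.qm × Fin P.J))
      (fun z : Bool × Fin P.q => z.1 = true ∧ P.qm ≤ (z.2 : ℕ))
  have h2 : Pr (fun z : Bool × Fin P.q => z.1 = true ∧ P.qm ≤ (z.2 : ℕ)) =
      Pr (fun b : Bool => b = true) * Pr (fun a : Fin P.q => P.qm ≤ (a : ℕ)) :=
    Pr_prod (fun b : Bool => b = true) (fun a : Fin P.q => P.qm ≤ (a : ℕ))
  have h3 : Pr (fun b : Bool => b = true) = 1 / 2 := by
    rw [Pr_eq_card]
    have h5 : (Finset.univ.filter (fun b : Bool => b = true)).card = 1 := by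
      rw [Finset.card_eq_one]
      exact ⟨true, by ext b; cases b <;> simp⟩
    rw [h5, Fintype.card_bool]
    norm_num
  have h4 : Pr (fun a : Fin P.q => P.qm ≤ (a : ℕ)) = ((P.q : ℝ) - P.qm) / P.q := by
    rw [Pr_eq_card, Fintype.card_fin]
    congr 1
    have h5 := Finset.card_filter_add_card_filter_not (s := (Finset.univ : Finset (Fin P.q)))
      (fun a : Fin P.q => (a : ℕ) < P.qm)
    rw [Fin.card_filter_val_lt, Finset.card_univ, Fintype.card_fin] at h5
    have h6 : (Finset.univ.filter (fun a : Fin P.q => P.qm ≤ (a : ℕ))) =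
        (Finset.univ.filter (fun a : Fin P.q => ¬ (a : ℕ) < P.qm)) :=
      Finset.filter_congr fun a _ => not_lt.symm
    rw [h6]
    have h7 := P.hqm
    rw [min_eq_right h7] at h5
    have h8 : ((P.qm : ℝ) + ((Finset.univ.filter (fun a : Fin P.q => ¬ (a : ℕ) < P.qm)).card : ℝ)) =
        P.q := by exact_mod_cast h5
    linarith
  have hq : (0 : ℝ) < P.q := by exact_mod_cast P.q_pos
  rw [h1, h2, h3, h4]
  apply le_of_eq
  field_simp

theorem card_own [Fintype V] (w : V) (S : Finset V) (hS : ∀ u, u ∈ S ↔ P.Own w u) :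
    S.card ≤ P.D := by
  classical
  have h1 : Nat.card {u // P.Own w u} = S.card := by
    rw [Nat.card_congr (Equiv.subtypeEquivRight fun u => (hS u).symm), Nat.card_eq_fintype_card,
      Fintype.card_coe]
  rw [← h1]
  exact P.dg_le w

theorem pr_round0 [Fintype V] (hU : GoalSEU) (w : V) (y : ℝ) :
    Pr (fun ω : P.Om => y ≤ (Nat.card {u // P.Own w u ∧ (P.al (ω u) ∧ P.qm ≤ (P.co (ω u) : ℕ))} : ℝ))
      ≤ Real.exp ((P.D : ℝ) * ((P.q : ℝ) - P.qm) / P.q - y) := by
  classical
  set S : Finset V := Finset.univ.filter (fun u => P.Own w u) with hS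
  have hmem : ∀ u, u ∈ S ↔ P.Own w u := fun u => by simp [hS]
  have hq : (0 : ℝ) < P.q := by exact_mod_cast P.q_pos
  have hqm : (P.qm : ℝ) ≤ P.q := by exact_mod_cast P.hqm
  have h1 := hU V P.Lab S P.idx (fun u ω => P.al (ω u) ∧ P.qm ≤ (P.co (ω u) : ℕ))
    (((P.q : ℝ) - P.qm) / (2 * P.q)) P.D (card_own P w S hmem) (P.hidx.injOn)
    (div_nonneg (by linarith) (by linarith))
    (fun i _ ω ω' hag hh => by
      have h2 := hag i (fun _ => le_rfl)
      show P.al (ω' i) ∧ P.qm ≤ (P.co (ω' i) : ℕ)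
      rw [← h2]
      exact hh)
    (fun i _ ω => by
      have h2 : ∀ l : P.Lab, (P.al (Function.update ω i l i) ∧
          P.qm ≤ (P.co (Function.update ω i l i) : ℕ)) → (P.al l ∧ P.qm ≤ (P.co l : ℕ)) := by
        intro l hl
        rw [Function.update_self] at hl
        exact hl
      exact (Pr_mono h2).trans (pr_lab P))
    y
  have h3 : 2 * (((P.q : ℝ) - P.qm) / (2 * P.q)) * P.D - y =
      (P.D : ℝ) * ((P.q : ℝ) - P.qm) / P.q - y := by
    field_simp
  rw [h3] at h1
  refine le_trans (Pr_mono ?_) h1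
  intro ω hω
  have h4 : Nat.card {u // P.Own w u ∧ (P.al (ω u) ∧ P.qm ≤ (P.co (ω u) : ℕ))} =
      Nat.card {i // i ∈ S ∧ (P.al (ω i) ∧ P.qm ≤ (P.co (ω i) : ℕ))} :=
    Nat.card_congr (Equiv.subtypeEquivRight fun u => by rw [hmem])
  rw [h4] at hω
  exact hω

theorem pr_lists [Fintype V] (hP : GoalPICK) (hU : GoalSEU) (hS : GoalSTL) (hM : GoalMISS)
    {κ : ℕ} (hκ : 1 ≤ κ) (w : V) (y : ℝ) (ω : P.Om)
    (hG : ∀ u, P.Own w u → P.Gd κ ω u ∧ (P.sm ω u : ℝ) ≤ 4 * (P.D : ℝ) / P.Z) :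
    Pr (fun π : V → Equiv.Perm (Fin P.q) =>
      y ≤ (Nat.card {u // P.Own w u ∧ Hit P (P.setpm ω π) u} : ℝ)) ≤
      Real.exp (2 * (P.D : ℝ) * (((P.q : ℝ) - P.qm + 4 * (P.D : ℝ) / P.Z) / κ) - y) := by
  classical
  set S : Finset V := Finset.univ.filter (fun u => P.Own w u) with hSdef
  have hmem : ∀ u, u ∈ S ↔ P.Own w u := fun u => by simp [hSdef]
  set M : ℕ := Finset.univ.sup P.idx + 1 with hMdef
  have hidx : ∀ v, P.idx v < M := fun v =>
    Nat.lt_succ_of_le (Finset.le_sup (f := P.idx) (Finset.mem_univ v))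
  set rk : V → ℕ := fun v => P.rd (ω v) * M + P.idx v with hrk
  have hrk1 : ∀ x u, P.rd (ω x) < P.rd (ω u) → rk x ≤ rk u := by
    intro x u h
    have h1 : (P.rd (ω x) + 1) * M ≤ P.rd (ω u) * M := Nat.mul_le_mul_right _ h
    have h2 := hidx x
    have h3 : (P.rd (ω x) + 1) * M = P.rd (ω x) * M + M := by ring
    show P.rd (ω x) * M + P.idx x ≤ P.rd (ω u) * M + P.idx u
    omega
  have hrk2 : ∀ x u, P.rd (ω x) = P.rd (ω u) → P.idx x < P.idx u → rk x ≤ rk u := by
    intro x u h h'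
    show P.rd (ω x) * M + P.idx x ≤ P.rd (ω u) * M + P.idx u
    rw [h]
    omega
  have hinj : Set.InjOn rk (S : Set V) := by
    intro x _ u _ h
    apply P.hidx
    have h1 : P.rd (ω x) * M + P.idx x = P.rd (ω u) * M + P.idx u := h
    have h2 : (P.rd (ω x) * M + P.idx x) % M = P.idx x := by
      rw [Nat.mul_add_mod', Nat.mod_eq_of_lt (hidx x)]
    have h3 : (P.rd (ω u) * M + P.idx u) % M = P.idx u := by
      rw [Nat.mul_add_mod', Nat.mod_eq_of_lt (hidx u)]
    rw [← h2, ← h3, h1]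
  have hq : (0 : ℝ) < P.q := by exact_mod_cast P.q_pos
  have hqm : (P.qm : ℝ) ≤ P.q := by exact_mod_cast P.hqm
  have hκ0 : (0 : ℝ) < κ := by exact_mod_cast hκ
  have hZ0 : (0 : ℝ) < P.Z := by exact_mod_cast P.hZ
  have hν : 0 ≤ ((P.q : ℝ) - P.qm + 4 * (P.D : ℝ) / P.Z) / κ := by
    apply div_nonneg _ hκ0.le
    have h1 : 0 ≤ 4 * (P.D : ℝ) / P.Z := by positivity
    linarith
  have h1 := hU V (Equiv.Perm (Fin P.q)) S rk (fun u π => Hit P (P.setpm ω π) u)
    (((P.q : ℝ) - P.qm + 4 * (P.D : ℝ) / P.Z) / κ) P.D (card_own P w S hmem) hinj hν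
    (fun u _ π π' hag hh => by
      have hag' : ∀ x, P.rd (ω x) < P.rd (ω u) → π x = π' x := fun x hx =>
        hag x (fun _ => hrk1 x u hx)
      obtain ⟨_, hpk⟩ := hS V P ω π π' (P.rd (ω u)) hag'
      have e := hpk u (hag u (fun _ => le_rfl))
      rcases hh with hh | ⟨x, h2, h3, h4, h5⟩
      · left
        change P.qm ≤ ((P.pk (P.setpm ω π') (P.st (P.setpm ω π') (P.rd (ω u))) u : Fin P.q) : ℕ)
        rw [← e]
        exact hh
      · right
        refine ⟨x, h2, h3, h4, ?_⟩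
        have e' := hpk x (hag x (fun _ => hrk2 x u h4 h3))
        exact (e'.symm.trans h5).trans e)
    (fun u hu π => by
      have hu' : P.Own w u := (hmem u).1 hu
      have hag : ∀ (l : Equiv.Perm (Fin P.q)) (x : V), P.rd (ω x) < P.rd (ω u) →
          Function.update π u l x = π x := by
        intro l x hx
        apply Function.update_of_ne
        rintro rfl
        exact lt_irrefl _ hx
      have hst : ∀ l, P.st (P.setpm ω (Function.update π u l)) (P.rd (ω u)) =
          P.st (P.setpm ω π) (P.rd (ω u)) := fun l => (hS V P ω _ _ _ (hag l)).1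
      have hpk : ∀ l x, x ≠ u → P.pk (P.setpm ω (Function.update π u l))
          (P.st (P.setpm ω (Function.update π u l)) (P.rd (ω u))) x =
          P.pk (P.setpm ω π) (P.st (P.setpm ω π) (P.rd (ω u))) x := fun l x hx =>
        (hS V P ω _ _ _ (hag l)).2 x (Function.update_of_ne hx l π)
      have hpku : ∀ l, P.pk (P.setpm ω (Function.update π u l))
          (P.st (P.setpm ω (Function.update π u l)) (P.rd (ω u))) u =
          Pool.Agent.Helper8.Sey.Sys.pick l (P.used (P.st (P.setpm ω π) (P.rd (ω u))) u) := by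
        intro l
        rw [hst l]
        show Pool.Agent.Helper8.Sey.Sys.pick (Function.update π u l u) _ = _
        rw [Function.update_self]
      set A : Finset (Fin P.q) := Finset.univ.filter (fun a : Fin P.q => P.qm ≤ (a : ℕ)) ∪
        (Finset.univ.filter (fun x => P.Own u x ∧ P.rd (ω x) = P.rd (ω u))).image
          (fun x => P.pk (P.setpm ω π) (P.st (P.setpm ω π) (P.rd (ω u))) x) with hA
      have hmiss := hM V P κ (P.setpm ω π) u (P.rd (ω u)) (hG u hu').1
      have hfree : κ ≤ Nat.card {b // ¬ P.used (P.st (P.setpm ω π) (P.rd (ω u))) u b} := by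
        have h2 : Nat.card {b // P.used (P.st (P.setpm ω π) (P.rd (ω u))) u b} +
            Nat.card {b // ¬ P.used (P.st (P.setpm ω π) (P.rd (ω u))) u b} = P.q := by
          rw [← Nat.card_sum, Nat.card_congr (Equiv.sumCompl _)]
          simp
        have h3 := P.D_le_q
        omega
      have h2 := hP P.q (P.used (P.st (P.setpm ω π) (P.rd (ω u))) u) A κ hκ hfree
      have h3 : ∀ l : Equiv.Perm (Fin P.q), Hit P (P.setpm ω (Function.update π u l)) u →
          Pool.Agent.Helper8.Sey.Sys.pick l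
            (P.used (P.st (P.setpm ω π) (P.rd (ω u))) u) ∈ A := by
        intro l hl
        rw [hA, Finset.mem_union]
        rcases hl with hl | ⟨x, h4, h5, h6, h7⟩
        · left
          rw [Finset.mem_filter]
          refine ⟨Finset.mem_univ _, ?_⟩
          rw [← hpku l]
          exact hl
        · right
          rw [Finset.mem_image]
          refine ⟨x, ?_, ?_⟩
          · rw [Finset.mem_filter]
            exact ⟨Finset.mem_univ _, h4, h6⟩
          · have hxu : x ≠ u := by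
              rintro rfl
              exact lt_irrefl _ h5
            rw [← hpku l, ← hpk l x hxu]
            exact h7
      refine (Pr_mono h3).trans (h2.trans ?_)
      apply div_le_div_of_nonneg_right _ hκ0.le
      have h4 : A.card ≤ (P.q - P.qm) + P.sm ω u := by
        rw [hA]
        refine (Finset.card_union_le _ _).trans (add_le_add (le_of_eq ?_) ?_)
        · have h5 := Finset.card_filter_add_card_filter_not
            (s := (Finset.univ : Finset (Fin P.q))) (fun a : Fin P.q => (a : ℕ) < P.qm)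
          rw [Fin.card_filter_val_lt, Finset.card_univ, Fintype.card_fin] at h5
          have h6 : (Finset.univ.filter (fun a : Fin P.q => P.qm ≤ (a : ℕ))) =
              (Finset.univ.filter (fun a : Fin P.q => ¬ (a : ℕ) < P.qm)) :=
            Finset.filter_congr fun a _ => not_lt.symm
          rw [h6]
          have h7 := P.hqm
          rw [min_eq_right h7] at h5
          omega
        · refine Finset.card_image_le.trans (le_of_eq ?_)
          unfold Sy.sm
          rw [Nat.card_eq_fintype_card, Fintype.card_subtype]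
      have h5 : (A.card : ℝ) ≤ ((P.q - P.qm : ℕ) : ℝ) + (P.sm ω u : ℝ) := by exact_mod_cast h4
      rw [Nat.cast_sub P.hqm] at h5
      have h6 := (hG u hu').2
      linarith)
    y
  have h3 : 2 * (((P.q : ℝ) - P.qm + 4 * (P.D : ℝ) / P.Z) / κ) * P.D - y =
      2 * (P.D : ℝ) * (((P.q : ℝ) - P.qm + 4 * (P.D : ℝ) / P.Z) / κ) - y := by
    ring
  rw [h3] at h1
  refine le_trans (Pr_mono ?_) h1
  intro π hπ
  have h4 : Nat.card {u // P.Own w u ∧ Hit P (P.setpm ω π) u} =
      Nat.card {i // i ∈ S ∧ Hit P (P.setpm ω π) i} :=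
    Nat.card_congr (Equiv.subtypeEquivRight fun u => by rw [hmem])
  rw [h4] at hπ
  exact hπ

end

theorem goalV2 : GoalPICK → GoalSEU → GoalRES → GoalSTL → GoalMISS → GoalV2 := by
  intro hP hU hR hS hM V _ P κ hκ w y
  classical
  set G : P.Om → Prop := fun ω => ∀ u, P.Own w u → P.Gd κ ω u ∧
    (P.sm ω u : ℝ) ≤ 4 * (P.D : ℝ) / P.Z with hG
  set E1 : P.Om → Prop := fun ω =>
    y / 2 ≤ (Nat.card {u // P.Own w u ∧ (P.al (ω u) ∧ P.qm ≤ (P.co (ω u) : ℕ))} : ℝ) with hE1
  set E2 : P.Om → Prop := fun ω =>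
    y / 2 ≤ (Nat.card {u // P.Own w u ∧ Hit P ω u} : ℝ) with hE2
  have h1 : Pr E1 ≤ Real.exp ((P.D : ℝ) * ((P.q : ℝ) - P.qm) / P.q - y / 2) :=
    pr_round0 P hU w (y / 2)
  have h2 : Pr (fun ω : P.Om => G ω ∧ E2 ω) ≤
      Real.exp (2 * (P.D : ℝ) * (((P.q : ℝ) - P.qm + 4 * (P.D : ℝ) / P.Z) / κ) - y / 2) := by
    refine (hR V P G E2 _ (Real.exp_nonneg _) ?_).1 ?_
    · intro ω π h
      exact h
    · intro ω h
      exact pr_lists P hP hU hS hM hκ w (y / 2) ω h
  refine le_trans (Pr_mono ?_) ((Pr_or_le E1 (fun ω => G ω ∧ E2 ω)).trans (add_le_add h1 h2))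
  rintro ω ⟨h3, h4⟩
  by_contra hcon
  rw [not_or, not_and] at hcon
  have h5 : ¬ E2 ω := hcon.2 h4
  have h6 : (Nat.card {u // P.Own w u ∧ P.Ms ω u}) ≤
      Nat.card {u // P.Own w u ∧ (P.al (ω u) ∧ P.qm ≤ (P.co (ω u) : ℕ))} +
      Nat.card {u // P.Own w u ∧ Hit P ω u} := by
    rw [Nat.card_eq_fintype_card, Nat.card_eq_fintype_card, Nat.card_eq_fintype_card,
      Fintype.card_subtype, Fintype.card_subtype, Fintype.card_subtype]
    refine (Finset.card_le_card ?_).trans (Finset.card_union_le _ _)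
    intro u hu
    rw [Finset.mem_filter] at hu
    rw [Finset.mem_union, Finset.mem_filter, Finset.mem_filter]
    rcases ms_cases P hM hκ (h4 u hu.2.1).1 hu.2.2 with h7 | h7
    · exact Or.inl ⟨Finset.mem_univ _, hu.2.1, h7⟩
    · exact Or.inr ⟨Finset.mem_univ _, hu.2.1, h7⟩
  have h7 : ((Nat.card {u // P.Own w u ∧ P.Ms ω u} : ℕ) : ℝ) ≤
      (Nat.card {u // P.Own w u ∧ (P.al (ω u) ∧ P.qm ≤ (P.co (ω u) : ℕ))} : ℝ) +
      (Nat.card {u // P.Own w u ∧ Hit P ω u} : ℝ) := by exact_mod_cast h6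
  have h8 : ¬ E1 ω := hcon.1
  simp only [hE1, hE2, not_le] at h5 h8
  linarith

end Pool.Agent.Helper51.Sey3
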